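import Mathlib

/-!
# Polyhedral maps on closed surfaces and nonrevisiting paths (MP_133bfc_co)

A polyhedral map is given by its face boundaries: the boundary cycle of the face `f` is the cyclic
permutation `bd f` of the vertices (each vertex of the cycle goes to the next one). Every edge lies
on exactly two faces, the faces at a vertex form one cycle (link), the graph is connected, and two
distinct faces meet in the empty set, one vertex or one edge.
-/

set_option autoImplicit false

namespace Pool.Agent.NR

/-- The edges of the cycle `v ↦ σ v`. -/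
def cycleEdges {V : Type} [Fintype V] [DecidableEq V] (σ : Equiv.Perm V) : Finset (Sym2 V) :=
  σ.support.image fun v => s(v, σ v)

/-- A polyhedral map on a closed surface with vertex set `V` and set of faces `F`. -/
structure PolyMap (V F : Type) [Fintype V] [DecidableEq V] where
  /-- the boundary cycle of a face -/
  bd : F → Equiv.Perm V
  isCycle : ∀ f, (bd f).IsCycle
  three_le : ∀ f, 3 ≤ (bd f).support.card
  /-- every edge lies on exactly two faces -/
  two : ∀ e : Sym2 V, (∃ f, e ∈ cycleEdges (bd f)) →
    ∃ f g, f ≠ g ∧ ∀ k, e ∈ cycleEdges (bd k) ↔ k = f ∨ k = g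
  /-- every vertex lies on a face -/
  covered : ∀ v, ∃ f, v ∈ (bd f).support
  /-- the faces at a vertex form one cycle: from a face at `v` one reaches every face at `v`,
  crossing edges at `v` -/
  link : ∀ (v : V) (S : Set F), (∃ f ∈ S, v ∈ (bd f).support) →
    (∀ f ∈ S, ∀ g, (∃ e : Sym2 V, v ∈ e ∧ e ∈ cycleEdges (bd f) ∧ e ∈ cycleEdges (bd g)) → g ∈ S) →
    ∀ g, v ∈ (bd g).support → g ∈ S
  /-- the graph is connected -/
  connected : ∀ S : Set V, S.Nonempty → (∀ v ∈ S, ∀ f, bd f v ∈ S) → S = Set.univ
  /-- two distinct faces meet in the empty set, a single vertex or a single edge -/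
  meet : ∀ f g, f ≠ g →
    (∀ w, ¬ (w ∈ (bd f).support ∧ w ∈ (bd g).support)) ∨
    (∃ u, ∀ w, (w ∈ (bd f).support ∧ w ∈ (bd g).support) ↔ w = u) ∨
    (∃ u v, u ≠ v ∧ s(u, v) ∈ cycleEdges (bd f) ∧ s(u, v) ∈ cycleEdges (bd g) ∧
      ∀ w, (w ∈ (bd f).support ∧ w ∈ (bd g).support) ↔ w = u ∨ w = v)

/-- The vertices of a face. -/
def PolyMap.vs {V F : Type} [Fintype V] [DecidableEq V] (M : PolyMap V F) (f : F) : Finset V :=
  (M.bd f).support

/-- The edges of a face. -/
def PolyMap.es {V F : Type} [Fintype V] [DecidableEq V] (M : PolyMap V F) (f : F) :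
    Finset (Sym2 V) := cycleEdges (M.bd f)

/-- The graph of the map with edge sets `es f` of the faces. -/
def gr {V F : Type} (es : F → Finset (Sym2 V)) : SimpleGraph V where
  Adj u v := u ≠ v ∧ ∃ f, s(u, v) ∈ es f
  symm := ⟨fun u v h => ⟨h.1.symm, by rw [Sym2.eq_swap]; exact h.2⟩⟩
  loopless := ⟨fun u h => h.1 rfl⟩

/-- A path is nonrevisiting if it meets every face in a connected set: if the vertices number `i`
and `j` of the path, `i < j`, lie on the face `f`, then all edges of the path between them are
edges of `f`. -/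
def NonRev {V F : Type} (vs : F → Finset V) (es : F → Finset (Sym2 V)) {x y : V}
    (p : (gr es).Walk x y) : Prop :=
  p.IsPath ∧ ∀ (f : F) (i j : ℕ), i < j → j ≤ p.length → p.getVert i ∈ vs f → p.getVert j ∈ vs f →
    ∀ k, i ≤ k → k < j → s(p.getVert k, p.getVert (k + 1)) ∈ es f

/-- The Euler characteristic of the surface. -/
def PolyMap.chi {V F : Type} [Fintype V] [DecidableEq V] [Fintype F] (M : PolyMap V F) : ℤ :=
  (Fintype.card V : ℤ) - ((Finset.univ.biUnion fun f => M.es f).card : ℤ) + (Fintype.card F : ℤ)

end Pool.Agent.NR
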