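import Pool.Agent.helper24.NR.Defs

/-!
# Project NR (MP_133bfc_co): nonrevisiting paths when every vertex lies in both stars (helper24)

THEOREM. Let `M` be a polyhedral map with Euler characteristic at least `-1` (for example on `N_3`)
and `x ≠ y` vertices such that every other vertex lies on a face with `x` and on a face with `y`.
Then `x`, `y` are joined by a nonrevisiting path. (The bound is sharp.)

Proof. If there is no such path, then no face contains `x` and `y` (row QSF), no vertex is adjacent
to both (QAV), no edge `vu` with `v` adjacent to `x`, `u` adjacent to `y` lies on a face with `x` and on a face with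
`y` (QBU): this is `Bad`. Let `a`, `b` be the numbers of faces at `x`, `y`, `N` the number of the other
vertices, `e` the number of the common edges. Rows DEG .. ARI: `N - e ≥ 8` and `2 χ ≤ 4 - (N - e)`.

RULES. Row `XXX`: file `Pool/Agent/<seat>/NR/XXX.lean`, `import Pool.Agent.helper24.NR.Spec`,
`set_option autoImplicit false`, `namespace Pool.Agent.NR`, `open Finset`, `theorem XXX ... : XXX_stmt` with any
`_stmt` of this file as hypotheses (no circles). Begin the proofs with `classical` if needed. Auxiliary lemmas private or prefixed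
`XXX_`. No straight double quotes, no convert / congr!, no native_decide, no sorry.
-/

set_option autoImplicit false

namespace Pool.Agent.NR

open Finset

/-- The properties of a polyhedral map which are used (no permutations any more). -/
structure Cfg {V F : Type} (vs : F → Finset V) (es : F → Finset (Sym2 V)) : Prop where
  ends : ∀ f u v, s(u, v) ∈ es f → u ∈ vs f ∧ v ∈ vs f ∧ u ≠ v
  deg2 : ∀ f, ∀ v ∈ vs f, ∃ a b, a ≠ b ∧ ∀ w, s(v, w) ∈ es f ↔ w = a ∨ w = b
  card_eq : ∀ f, (es f).card = (vs f).card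
  three : ∀ f, 3 ≤ (vs f).card
  tri : ∀ f u v w, u ≠ v → v ≠ w → u ≠ w → s(u, v) ∈ es f → s(v, w) ∈ es f → s(u, w) ∈ es f →
    (vs f).card = 3
  two : ∀ e : Sym2 V, (∃ f, e ∈ es f) → ∃ f g, f ≠ g ∧ ∀ k, e ∈ es k ↔ k = f ∨ k = g
  covered : ∀ v, ∃ f, v ∈ vs f
  link : ∀ (v : V) (S : Set F), (∃ f ∈ S, v ∈ vs f) →
    (∀ f ∈ S, ∀ g, (∃ e : Sym2 V, v ∈ e ∧ e ∈ es f ∧ e ∈ es g) → g ∈ S) → ∀ g, v ∈ vs g → g ∈ S
  meet3 : ∀ f g, f ≠ g → ∀ u v w, u ≠ v → v ≠ w → u ≠ w → u ∈ vs f → v ∈ vs f → w ∈ vs f →
    u ∈ vs g → v ∈ vs g → w ∈ vs g → False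
  meet2 : ∀ f g, f ≠ g → ∀ u v, u ≠ v → u ∈ vs f → v ∈ vs f → u ∈ vs g → v ∈ vs g → s(u, v) ∈ es f

/-- The situation if there is no nonrevisiting path. -/
structure Bad {V F : Type} (vs : F → Finset V) (es : F → Finset (Sym2 V)) (x y : V) : Prop where
  cfg : Cfg vs es
  ne : x ≠ y
  star : ∀ v, v ≠ x → v ≠ y → (∃ f, x ∈ vs f ∧ v ∈ vs f) ∧ ∃ f, y ∈ vs f ∧ v ∈ vs f
  noface : ∀ f, x ∈ vs f → y ∉ vs f
  hA : ∀ v f g, s(x, v) ∈ es f → s(y, v) ∉ es g
  hB : ∀ v u f g k l, s(x, v) ∈ es k → s(y, u) ∈ es l → x ∈ vs f → y ∈ vs g → s(v, u) ∈ es f → s(v, u) ∉ es g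

section Sets

variable {V F : Type} [Fintype V] [Fintype F]

open Classical in
/-- All edges. -/
noncomputable def EE (es : F → Finset (Sym2 V)) : Finset (Sym2 V) := univ.biUnion es

open Classical in
/-- The faces at `x`. -/
noncomputable def FX (vs : F → Finset V) (x : V) : Finset F := univ.filter fun f => x ∈ vs f

open Classical in
/-- The neighbours of `x`. -/
noncomputable def NX (es : F → Finset (Sym2 V)) (x : V) : Finset V := univ.filter fun v => ∃ f, s(x, v) ∈ es f

open Classical in
/-- The vertices other than `x`, `y`. -/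
noncomputable def WW (x y : V) : Finset V := univ.filter fun v => v ≠ x ∧ v ≠ y

open Classical in
/-- The edges not at `x` of the faces at `x`. -/
noncomputable def EX (vs : F → Finset V) (es : F → Finset (Sym2 V)) (x : V) : Finset (Sym2 V) :=
  (EE es).filter fun e => x ∉ e ∧ ∃ f, x ∈ vs f ∧ e ∈ es f

open Classical in
/-- The common edges: on a face at `x` and on a face at `y`. -/
noncomputable def CM (vs : F → Finset V) (es : F → Finset (Sym2 V)) (x y : V) : Finset (Sym2 V) :=
  (EE es).filter fun e => (∃ f, x ∈ vs f ∧ e ∈ es f) ∧ ∃ g, y ∈ vs g ∧ e ∈ es g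

open Classical in
/-- The inner edges: on no face at `x` or `y`. -/
noncomputable def IN (vs : F → Finset V) (es : F → Finset (Sym2 V)) (x y : V) : Finset (Sym2 V) :=
  (EE es).filter fun e => ∀ f, e ∈ es f → x ∉ vs f ∧ y ∉ vs f

open Classical in
/-- The faces which contain neither `x` nor `y`. -/
noncomputable def HH (vs : F → Finset V) (x y : V) : Finset F := univ.filter fun f => x ∉ vs f ∧ y ∉ vs f

open Classical in
/-- The small faces at `x`: they have a common edge with both ends adjacent to `x`. -/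
noncomputable def SX (vs : F → Finset V) (es : F → Finset (Sym2 V)) (x y : V) : Finset F :=
  (FX vs x).filter fun f => ∃ u v, s(u, v) ∈ es f ∧ s(u, v) ∈ CM vs es x y ∧ u ∈ NX es x ∧ v ∈ NX es x

open Classical in
/-- The pairs of a face at `x` and a face at `y` which have a common vertex. -/
noncomputable def PP (vs : F → Finset V) (x y : V) : Finset (F × F) :=
  (FX vs x ×ˢ FX vs y).filter fun p => ∃ w, w ∈ vs p.1 ∧ w ∈ vs p.2

end Sets

/-! ## Cycles and paths -/

/-- **CYA** (short-medium, Mathlib only). `s(u, v) ∈ cycleEdges σ` iff there is `w` in the support with `{u, v} = {w, σ w}`; `w ≠ σ w`. For `v` in the support take `a = σ v`, `b = σ⁻¹ v`; `a ≠ b`, because `σ (σ v) = v` would give a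
cycle of length 2 (`Equiv.Perm.IsCycle`: every `w` of the support is `(σ ^ k) v`, so it is `v` or `σ v`, support of card at most 2). Same remark: `w ↦ s(w, σ w)` is injective on the support. -/
def CYA_stmt : Prop := ∀ (V : Type) [Fintype V] [DecidableEq V] (σ : Equiv.Perm V), σ.IsCycle → 3 ≤ σ.support.card →
  (∀ u v, s(u, v) ∈ cycleEdges σ → u ∈ σ.support ∧ v ∈ σ.support ∧ u ≠ v) ∧
  (∀ v ∈ σ.support, ∃ a b, a ≠ b ∧ ∀ w, s(v, w) ∈ cycleEdges σ ↔ w = a ∨ w = b) ∧
  (cycleEdges σ).card = σ.support.card

/-- **CYB** (short, Mathlib only). By the three edges each of `σ u`, `σ v`, `σ w` is in `{u, v, w}`: the edges at `u` are `s(u, σ u)`, `s(u, σ⁻¹ u)`, two different ones (length `≥ 3`), so `σ u ∈ {v, w}`; the same for `v`, `w`. So the orbit of `u` (= the support) is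
contained in `{u, v, w}`. Use CYA (hypothesis `cya : CYA_stmt`) for the edges at `u`. -/
def CYB_stmt : Prop := ∀ (V : Type) [Fintype V] [DecidableEq V] (σ : Equiv.Perm V), σ.IsCycle → 3 ≤ σ.support.card → ∀ u v w, u ≠ v → v ≠ w → u ≠ w →
  s(u, v) ∈ cycleEdges σ → s(v, w) ∈ cycleEdges σ → s(u, w) ∈ cycleEdges σ → σ.support.card = 3

/-- **QSF** (medium). Two vertices of one face `f`. `σ = bd f`, `y = (σ ^ k) x` with `0 < k < n = #support` (`Equiv.Perm.IsCycle`). If `s(x, y) ∈ es f` take the path of one edge (a face which contains `x`, `y` is `f` or meets `f` in the edge `s(x, y)`). Otherwise the path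
`x, σ x, …, σ^k x`: the vertices are distinct (`k < n`); let `p_i = σ^i x`, `p_j = σ^j x`, `i < j ≤ k`, be on a face `g`. `g = f`: all the edges `s(p_l, p_{l+1})` are in `es f`. `g ≠ f`: by `M.meet` the two vertices are the ends of an edge of `f` and of `g`, so `p_j = σ p_i` or
`p_i = σ p_j`; in the first case `j = i + 1` and the edge is in `es g`; in the second case `j - i = n - 1`, so `i = 0`, `j = k = n - 1`, and `s(x, y) ∈ es f`, excluded. -/
def QSF_stmt : Prop := ∀ (V F : Type) [Fintype V] [DecidableEq V] (M : PolyMap V F) (x y : V) (f : F), x ≠ y → x ∈ M.vs f → y ∈ M.vs f →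
  ∃ p : (gr M.es).Walk x y, NonRev M.vs M.es p

/-- **QAV** (short). The path `x, v, y`. If two vertices joined by an edge (`s(u, v) ∈ es k`) are on a face `g` then `s(u, v) ∈ es g` (`g = k` or `meet2`). `x` and `y` are on no common face. -/
def QAV_stmt : Prop := ∀ (V F : Type) (vs : F → Finset V) (es : F → Finset (Sym2 V)) (x y v : V) (k l : F), Cfg vs es → x ≠ y → (∀ f, x ∈ vs f → y ∉ vs f) →
  s(x, v) ∈ es k → s(y, v) ∈ es l → ∃ p : (gr es).Walk x y, NonRev vs es p

/-- **QBU** (short). The path `x, v, u, y`. Adjacent vertices as in QAV. A face `h` which contains `x` and `u` is `f`: otherwise `meet2` (`h`, `f`; both contain `x`, `u`) gives `s(x, u) ∈ es h`, against `s(y, u) ∈ es l` and the hypothesis `hA`; so the edges `s(x, v)`, `s(v, u)` are in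
`es h`. In the same way a face which contains `v` and `y` is `g`. No face contains `x` and `y`. (`x ≠ u` because `u ∈ vs g`, `y ∈ vs g`, and so on.) -/
def QBU_stmt : Prop := ∀ (V F : Type) (vs : F → Finset V) (es : F → Finset (Sym2 V)) (x y v u : V) (f g k l : F), Cfg vs es → x ≠ y → (∀ f, x ∈ vs f → y ∉ vs f) →
  (∀ v f g, s(x, v) ∈ es f → s(y, v) ∉ es g) → s(x, v) ∈ es k → s(y, u) ∈ es l → x ∈ vs f → y ∈ vs g → s(v, u) ∈ es f → s(v, u) ∈ es g →
  ∃ p : (gr es).Walk x y, NonRev vs es p

/-! ## Counting -/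

/-- **SYM** (short). Exchange of `x` and `y` (and `EE`, `IN`, `CM`, `PP` are symmetric). -/
def SYM_stmt : Prop := ∀ (V F : Type) (vs : F → Finset V) (es : F → Finset (Sym2 V)) (x y : V), Bad vs es x y → Bad vs es y x

/-- **DEG** (short-medium). Double counting of the pairs `(v, f)` with `s(x, v) ∈ es f` (`Finset.sum_card_bipartiteAbove_eq_sum_card_bipartiteBelow` or `card_mul_eq_card_mul`): for `v ∈ NX` there are exactly two such `f` (`two`), both in `FX` (`ends`); for `f ∈ FX` exactly two such `v` (`deg2`). -/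
def DEG_stmt : Prop := ∀ (V F : Type) [Fintype V] [Fintype F] (vs : F → Finset V) (es : F → Finset (Sym2 V)) (x : V), Cfg vs es → (NX es x).card = (FX vs x).card

open Classical in
/-- **AWW** (short). If `w ∈ NX`, the two faces `f`, `g` with the edge `s(x, w)` are exactly the faces with `x` and `w`: if `k` contains both, `k = f` or `meet2` (`k`, `f`) gives `s(x, w) ∈ es k`. If `w ∉ NX`: one face by `star`, not two by `meet2`. -/
def AWW_stmt : Prop := ∀ (V F : Type) [Fintype V] [Fintype F] (vs : F → Finset V) (es : F → Finset (Sym2 V)) (x y : V), Bad vs es x y →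
  ∀ w ∈ WW x y, ((FX vs x).filter fun f => w ∈ vs f).card = if w ∈ NX es x then 2 else 1

/-- **EXN** (medium). uses: `DEG_stmt AWW_stmt`. `∑_{f ∈ FX} #(vs f) = #FX + ∑_{w ∈ WW} #{f ∈ FX | w ∈ vs f} = #FX + #WW + #NX = #WW + 2 #FX` (`y` is on no face of `FX`; `NX ⊆ WW`). `#(vs f) = #(es f)`, and exactly two edges of `f` contain `x` (`deg2`), so
`∑_{f ∈ FX} #{e ∈ es f | x ∉ e} = #WW`. `EX` is the disjoint union of these sets (an edge `s(u, v)` without `x` on two faces of `FX`: `meet3` with `x`, `u`, `v`). -/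
def EXN_stmt : Prop := ∀ (V F : Type) [Fintype V] [Fintype F] (vs : F → Finset V) (es : F → Finset (Sym2 V)) (x y : V), Bad vs es x y → (EX vs es x).card = (WW x y).card

/-- **EDG** (medium). uses: `DEG_stmt`. `EE` is the disjoint union of the edges at `x` (their number is `#NX x = #FX x`), the edges at `y`, `EX x ∪ EX y` and `IN` (no edge contains `x` and `y`, no edge at `x` is in `EX y`: no face contains `x` and `y`; an edge which is not
in `IN` lies on a face at `x` or at `y`); `EX x ∩ EX y = CM`. -/
def EDG_stmt : Prop := ∀ (V F : Type) [Fintype V] [Fintype F] (vs : F → Finset V) (es : F → Finset (Sym2 V)) (x y : V), Bad vs es x y →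
  (EE es).card + (CM vs es x y).card = (FX vs x).card + (FX vs y).card + (EX vs es x).card + (EX vs es y).card + (IN vs es x y).card

open Classical in
/-- **HLO** (medium). The sum of the two cards is `#(es H) = #(vs H)`. If this is `≥ 4`, or if it is 3 and the first set is not empty, the claim is clear. Otherwise `H` is a triangle `p, q, r` (`#(vs H) = 3`, by `deg2` all three edges are in `es H`) and each edge lies on a face at `x` or at `y`. Two
of the three edges are of the same kind, say `s(q, p)` on `f`, `s(q, r)` on `f'`, both faces at `x` (exchange the names of `p, q, r` and, with SYM, of `x`, `y`). `f ≠ H`, `f' ≠ H`. `f ≠ f'`: otherwise `meet3` (`f`, `H`; `p, q, r`). `f`, `f'` contain `x` and `q`, so `s(q, x) ∈ es f`, `es f'` (`meet2`).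
The faces at `q` are exactly `f`, `f'`, `H`: `link` for `v = q`, `S = {f, f', H}`: the edges at `q` of `f` are `s(q, x)`, `s(q, p)` (`deg2`), of `f'` `s(q, x)`, `s(q, r)`, of `H` `s(q, p)`, `s(q, r)`, and each of these three edges is on two faces only (`two`), both in `S`. But `q` is on a face
with `y` (`star`; `q ≠ x, y` because `H ∈ HH`): it is none of the three. Contradiction. -/
def HLO_stmt : Prop := ∀ (V F : Type) [Fintype V] [Fintype F] (vs : F → Finset V) (es : F → Finset (Sym2 V)) (x y : V), Bad vs es x y → ∀ H ∈ HH vs x y,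
  4 ≤ 2 * ((es H).filter fun e => e ∈ IN vs es x y).card + ((es H).filter fun e => e ∉ IN vs es x y).card

open Classical in
/-- **HSI** (short). Each inner edge is on exactly two faces (`two`), both in `HH` (double counting). -/
def HSI_stmt : Prop := ∀ (V F : Type) [Fintype V] [Fintype F] (vs : F → Finset V) (es : F → Finset (Sym2 V)) (x y : V), Bad vs es x y →
  ∑ H ∈ HH vs x y, ((es H).filter fun e => e ∈ IN vs es x y).card = 2 * (IN vs es x y).card

open Classical in
/-- **HSO** (medium). Double counting: an edge which is not inner and lies on a face of `HH` contains neither `x` nor `y` (`ends`), so it is in `EX x` or in `EX y`, not in both (its two faces: one in `HH`, one at `x` or at `y`). Conversely an edge `e` of `EX x` which is not common lies on exactly one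
face at `x` (two different ones: `meet3` with `x` and the ends of `e`), so its other face is in `HH`. So the sum is `#(EX x \ CM) + #(EX y \ CM)`, and `CM ⊆ EX x`, `CM ⊆ EX y` (a common edge does not contain `x`: it would be on a face at `y`, with `x`). -/
def HSO_stmt : Prop := ∀ (V F : Type) [Fintype V] [Fintype F] (vs : F → Finset V) (es : F → Finset (Sym2 V)) (x y : V), Bad vs es x y →
  ∑ H ∈ HH vs x y, ((es H).filter fun e => e ∉ IN vs es x y).card + 2 * (CM vs es x y).card = (EX vs es x).card + (EX vs es y).card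

/-- **PAI** (medium). uses: `SYM_stmt DEG_stmt AWW_stmt`. Count the triples `(w, f, g)`, `w ∈ vs f ∩ vs g`, `f ∈ FX x`, `g ∈ FX y` (`w ∈ WW` automatically). By `w`: `∑_w #A(w) #B(w)` with `#A(w) = 2` on `NX x`, otherwise 1, `#B(w) = 2` on `NX y`, otherwise 1 (AWW and SYM); `NX x`, `NX y` are disjoint
(`hA`): the sum is `#WW + #NX x + #NX y = #WW + #FX x + #FX y`. By `(f, g)`: `vs f ∩ vs g` has 0, 1 or 2 elements (`meet3`), 2 iff it is the set of the ends of an edge of both faces (`meet2`), that is of a common edge; each common edge belongs to exactly one pair `(f, g)` (`two`). So the sum is `#PP + #CM`. -/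
def PAI_stmt : Prop := ∀ (V F : Type) [Fintype V] [Fintype F] (vs : F → Finset V) (es : F → Finset (Sym2 V)) (x y : V), Bad vs es x y →
  (PP vs x y).card + (CM vs es x y).card = (WW x y).card + (FX vs x).card + (FX vs y).card

/-- **SMA** (medium). Let `s(u, v)` be the edge of `f ∈ SX x y`, on a face `g₀ ∈ FX y`. `f` contains `x, u, v` and the edges `s(x, u)`, `s(x, v)` (`meet2` with a face of this edge, or the same face), so it is a triangle (`tri`). A face `g` at `y` which has a common vertex with `f` contains `u` or `v` (not `x`). If it contains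
`u` and `g ≠ g₀`, then `meet2` (`g`, `g₀`; vertices `u`, `y`) gives `s(y, u) ∈ es g`, against `hA`. The same for `v`. So `g = g₀`. `g₀ ∉ SX y x`: otherwise `g₀` is a triangle `y, u', v'` with `u', v'` adjacent to `y`, so `u ∈ {u', v'}` is adjacent to `x` and to `y`, against `hA`. -/
def SMA_stmt : Prop := ∀ (V F : Type) [Fintype V] [Fintype F] (vs : F → Finset V) (es : F → Finset (Sym2 V)) (x y : V), Bad vs es x y → ∀ f ∈ SX vs es x y,
  ∃ g₀ ∈ FX vs y, g₀ ∉ SX vs es y x ∧ ∀ g ∈ FX vs y, (∃ w, w ∈ vs f ∧ w ∈ vs g) ↔ g = g₀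

/-- **SMB** (medium). uses: `SYM_stmt DEG_stmt`. Call `w ∈ WW` plain if it is in neither of `NX x`, `NX y`; there are `#WW - #FX x - #FX y` plain vertices (`NX x`, `NX y ⊆ WW` disjoint). A common edge (it lies on exactly one `f ∈ FX x` and one `g ∈ FX y`) either has a plain end, or both ends in `NX x`, or both in `NX y` (`hB`: not one in each).
A plain `w` is an end of at most one common edge: let `s(w, p)`, `s(w, q)` be two of them, on `f, g` resp. `f', g'`; `f = f'` because `w ∉ NX x` (`meet2` with `x`, `w`), `g = g'` in the same way, and `f`, `g` contain `w, p, q`: `meet3`. So at most `#plain` common edges have a plain end. The common edges with both ends in `NX x`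
are at most `#SX x y`: the edge `s(u, v)` is on a face `f ∈ FX x`, `f ∈ SX x y`, `f` is a triangle `x, u, v` (as in SMA), so the edge is determined by `f`. The same for `y`. -/
def SMB_stmt : Prop := ∀ (V F : Type) [Fintype V] [Fintype F] (vs : F → Finset V) (es : F → Finset (Sym2 V)) (x y : V), Bad vs es x y →
  (CM vs es x y).card + (FX vs x).card + (FX vs y).card ≤ (WW x y).card + (SX vs es x y).card + (SX vs es y x).card

/-- **PBB** (short-medium). uses: `SYM_stmt SMA_stmt`. `α = #(FX x \ SX x y)`, `β = #(FX y \ SX y x)`. A pair `(f, g) ∈ PP` with `f ∈ SX x y` has `g = g₀(f)`: at most `#SX x y` pairs; with `g ∈ SX y x`: at most `#SX y x` pairs (SMA for `Bad y x`); all others are in `(FX x \ SX) × (FX y \ SX)`. `α ≥ 1` or `β ≥ 1`: `FX x` is not empty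
(`covered`); if `α = 0` some `f ∈ FX x` is in `SX x y`, and `g₀(f) ∈ FX y \ SX y x`. -/
def PBB_stmt : Prop := ∀ (V F : Type) [Fintype V] [Fintype F] (vs : F → Finset V) (es : F → Finset (Sym2 V)) (x y : V), Bad vs es x y →
  ∃ α β : ℕ, α + (SX vs es x y).card = (FX vs x).card ∧ β + (SX vs es y x).card = (FX vs y).card ∧
    (PP vs x y).card ≤ α * β + (SX vs es x y).card + (SX vs es y x).card ∧ (1 ≤ α ∨ 1 ≤ β)

/-- **ARI** (short, arithmetic). `N - e + α + β ≤ α β` and `N - e ≥ α + β`, so `2 (α + β) ≤ α β`, `(α - 2)(β - 2) ≥ 4`, both `> 2` (not both `≤ 0`), so `α + β ≥ 8`. -/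
def ARI_stmt : Prop := ∀ N e a b s t α β P : ℕ, P + e = N + a + b → e + a + b ≤ N + s + t → α + s = a → β + t = b → P ≤ α * β + s + t → (1 ≤ α ∨ 1 ≤ β) → 8 + e ≤ N

/-- **EUL** (short). uses: `SYM_stmt EXN_stmt EDG_stmt HLO_stmt HSI_stmt HSO_stmt`. `#V = N + 2`, `#F = a + b + m` (`noface`), `#E = a + b + 2 N + h - e` (EDG, EXN), `4 m ≤ ∑_H (2 h_H + t_H) = 4 h + 2 N - 2 e`. So `2 (#V - #E + #F) = 4 - 2 N + 2 e - 2 h + 2 m ≤ 4 - N + e`. -/
def EUL_stmt : Prop := ∀ (V F : Type) [Fintype V] [Fintype F] (vs : F → Finset V) (es : F → Finset (Sym2 V)) (x y : V), Bad vs es x y →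
  2 * ((Fintype.card V : ℤ) - (EE es).card + Fintype.card F) + (WW x y).card ≤ 4 + (CM vs es x y).card

/-- **CFG** (short). uses: `CYA_stmt CYB_stmt`. The properties of `Cfg` for a polyhedral map. -/
def CFG_stmt : Prop := ∀ (V F : Type) [Fintype V] [DecidableEq V] (M : PolyMap V F), Cfg M.vs M.es

/-- **FIN** (helper24). -/
def FIN_stmt : Prop := ∀ (V F : Type) [Fintype V] [DecidableEq V] [Fintype F] (M : PolyMap V F) (x y : V), x ≠ y →
  (∀ v, v ≠ x → v ≠ y → (∃ f, x ∈ M.vs f ∧ v ∈ M.vs f) ∧ ∃ f, y ∈ M.vs f ∧ v ∈ M.vs f) → -1 ≤ M.chi →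
  ∃ p : (gr M.es).Walk x y, NonRev M.vs M.es p

end Pool.Agent.NR
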